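import Pool.Agent.Helper93.HH.FC

/-!
# HH, FL-7 and FL-8: the sources which are in no block, the sources of the blocks, the centres
-/

open Set
open Pool.Agent.Helper83.OP
open Pool.Agent.Helper43.HH
open Pool.Agent.Helper93.HH

namespace Pool.Agent.Helper5.HH

open HD

variable {V P Q : Type} [Fintype V] [Fintype P] [Finite Q] {D : HD V P Q} {K : ℕ}
  {S : Sys D K} {e0 : Sym2 V} {D0 M : ℕ} {Φ : Fl S e0 D0 M}

open Classical in
theorem left_sum (Bl : Bk Φ) (gl : V → ℝ) (hg : ∀ c, 0 ≤ gl c)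
    (h : ∀ s ∈ Φ.Sr, Φ.ms s ≤ gl (S.E.ctr s.2.2)) :
    ∑ s ∈ Φ.Sr with (∀ β ∈ Bl.B (S.E.ctr s.2.2) (Bl.cls s), s ∉ β), Φ.ms s ≤
      8 * ∑ c : V, (if (∃ s ∈ Φ.Sr, S.E.ctr s.2.2 = c) then gl c else 0) := by
  set F := Φ.Sr.filter fun s => ∀ β ∈ Bl.B (S.E.ctr s.2.2) (Bl.cls s), s ∉ β with hF
  have h1 : ∑ s ∈ F, Φ.ms s = ∑ c : V, ∑ s ∈ F with S.E.ctr s.2.2 = c, Φ.ms s :=
    (Finset.sum_fiberwise_of_maps_to (fun s _ => Finset.mem_univ (S.E.ctr s.2.2)) _).symm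
  rw [h1, Finset.mul_sum]
  refine Finset.sum_le_sum fun c _ => ?_
  by_cases hc : ∃ s ∈ Φ.Sr, S.E.ctr s.2.2 = c
  · rw [if_pos hc]
    set Fc := F.filter fun s => S.E.ctr s.2.2 = c with hFc
    have hmem : ∀ s ∈ Fc, (s ∈ Φ.Sr ∧ ∀ β ∈ Bl.B (S.E.ctr s.2.2) (Bl.cls s), s ∉ β) ∧
        S.E.ctr s.2.2 = c := by
      intro s hs
      obtain ⟨a1, a2⟩ := Finset.mem_filter.1 hs
      exact ⟨Finset.mem_filter.1 a1, a2⟩
    have h2 : ∑ s ∈ Fc, Φ.ms s = ∑ k ∈ Fc.image Bl.cls, ∑ s ∈ Fc with Bl.cls s = k, Φ.ms s :=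
      (Finset.sum_fiberwise_of_maps_to (fun s hs => Finset.mem_image_of_mem _ hs) _).symm
    have h3 : ∀ k ∈ Fc.image Bl.cls, ∑ s ∈ Fc with Bl.cls s = k, Φ.ms s ≤
        4 * (1 / 2 : ℝ) ^ (k + 1) := by
      intro k _
      have hcard : (Fc.filter fun s => Bl.cls s = k).card ≤ 2 := by
        refine le_trans (Finset.card_le_card ?_) (Bl.left c k)
        intro s hs
        obtain ⟨a1, a2⟩ := Finset.mem_filter.1 hs
        obtain ⟨⟨b1, b2⟩, b3⟩ := hmem s a1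
        rw [Finset.mem_filter]
        refine ⟨b1, ⟨b3, a2⟩, ?_⟩
        rw [b3, a2] at b2
        exact b2
      have hle : ∀ s ∈ Fc.filter (fun s => Bl.cls s = k), Φ.ms s ≤ (1 / 2 : ℝ) ^ k := by
        intro s hs
        obtain ⟨a1, a2⟩ := Finset.mem_filter.1 hs
        have := (Bl.hcls s (hmem s a1).1.1).2
        rw [a2] at this
        exact this
      have h4 := Finset.sum_le_card_nsmul _ _ _ hle
      rw [nsmul_eq_mul] at h4
      have h5 : ((Fc.filter fun s => Bl.cls s = k).card : ℝ) ≤ 2 := by exact_mod_cast hcard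
      have h6 : (0 : ℝ) ≤ (1 / 2) ^ k := by positivity
      calc _ ≤ _ := h4
        _ ≤ 2 * (1 / 2 : ℝ) ^ k := mul_le_mul_of_nonneg_right h5 h6
        _ = _ := by rw [pow_succ]; ring
    have h7 : ∑ k ∈ Fc.image Bl.cls, (1 / 2 : ℝ) ^ (k + 1) ≤ 2 * gl c := by
      refine geo_sum_le _ _ (hg c) ?_
      intro k hk
      obtain ⟨s, hs, rfl⟩ := Finset.mem_image.1 hk
      obtain ⟨⟨b1, -⟩, b3⟩ := hmem s hs
      have h8 := h s b1
      rw [b3] at h8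
      exact (Bl.hcls s b1).1.le.trans h8
    rw [h2]
    calc _ ≤ ∑ k ∈ Fc.image Bl.cls, 4 * (1 / 2 : ℝ) ^ (k + 1) := Finset.sum_le_sum h3
      _ = 4 * ∑ k ∈ Fc.image Bl.cls, (1 / 2 : ℝ) ^ (k + 1) := by rw [Finset.mul_sum]
      _ ≤ 4 * (2 * gl c) := mul_le_mul_of_nonneg_left h7 (by norm_num)
      _ = _ := by ring
  · rw [if_neg hc, mul_zero]
    refine le_of_eq (Finset.sum_eq_zero fun s hs => ?_)
    obtain ⟨a1, a2⟩ := Finset.mem_filter.1 hs
    exact absurd ⟨s, (Finset.mem_filter.1 a1).1, a2⟩ hc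

open Classical in
theorem blocks_sum (Bl : Bk Φ) :
    ∑ s ∈ Φ.Sr with ¬ (∀ β ∈ Bl.B (S.E.ctr s.2.2) (Bl.cls s), s ∉ β), Φ.ms s ≤
      6 * ∑ x ∈ Bl.T0, bmu x := by
  set F := Φ.Sr.filter fun s => ¬ ∀ β ∈ Bl.B (S.E.ctr s.2.2) (Bl.cls s), s ∉ β with hF
  have h1 : ∀ s ∈ F, Φ.ms s ≤ ∑ x ∈ Bl.T0, if s ∈ x.2.2 then 2 * bmu x else 0 := by
    intro s hs
    obtain ⟨a1, a2⟩ := Finset.mem_filter.1 hs
    push Not at a2
    obtain ⟨β, hβ, hsβ⟩ := a2
    have hx : ((S.E.ctr s.2.2, Bl.cls s, β) : V × ℕ × Finset (P × V × V)) ∈ Bl.T0 :=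
      (Bl.mem_T0 _).2 ⟨Bl.hkm s a1, hβ⟩
    have h2 : Φ.ms s ≤ 2 * bmu ((S.E.ctr s.2.2, Bl.cls s, β) : V × ℕ × Finset (P × V × V)) := by
      have := (Bl.hcls s a1).2
      unfold bmu
      rw [pow_succ]
      simp only
      linarith
    refine h2.trans ?_
    have h3 : 2 * bmu ((S.E.ctr s.2.2, Bl.cls s, β) : V × ℕ × Finset (P × V × V)) =
        (fun x : V × ℕ × Finset (P × V × V) => if s ∈ x.2.2 then 2 * bmu x else 0)
          (S.E.ctr s.2.2, Bl.cls s, β) := by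
      simp only
      rw [if_pos hsβ]
    rw [h3]
    refine Finset.single_le_sum (f := fun x : V × ℕ × Finset (P × V × V) =>
      if s ∈ x.2.2 then 2 * bmu x else 0) (fun x _ => ?_) hx
    show 0 ≤ if s ∈ x.2.2 then 2 * bmu x else 0
    split_ifs
    · unfold bmu
      positivity
    · exact le_rfl
  refine (Finset.sum_le_sum h1).trans ?_
  rw [Finset.sum_comm, Finset.mul_sum]
  refine Finset.sum_le_sum fun x hx => ?_
  have hc := Bl.card _ _ _ ((Bl.mem_T0 x).1 hx).2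
  have hb : 0 ≤ bmu x := by
    unfold bmu
    positivity
  rw [← Finset.sum_filter, Finset.sum_const, nsmul_eq_mul]
  have h4 : (F.filter fun s => s ∈ x.2.2).card ≤ 3 := by
    rw [← hc]
    refine Finset.card_le_card ?_
    intro s hs
    exact (Finset.mem_filter.1 hs).2
  have h5 : ((F.filter fun s => s ∈ x.2.2).card : ℝ) ≤ 3 := by exact_mod_cast h4
  calc _ ≤ 3 * (2 * bmu x) := mul_le_mul_of_nonneg_right h5 (by positivity)
    _ = _ := by ring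

/-- the centres of the cells with sources -/
theorem cen_sum (hD : D.Ok) (Φ : Fl S e0 D0 M) (gl : V → ℝ) (hg : ∀ c, 0 ≤ gl c) (A B : ℝ) (hA : 0 ≤ A)
    (hB : 0 ≤ B) (h1 : ∀ z ∈ S.Z, gl z ≤ A)
    (h2 : ∀ p ∉ S.Bd, D.x p ∉ S.Z → gl (D.x p) ≤ B * (1 / ((D.sg (D.x p) : ℝ) + D.L))) :
    open Classical in
    ∑ c : V, (if (∃ s ∈ Φ.Sr, S.E.ctr s.2.2 = c) then gl c else 0) ≤
      A * S.Z.ncard + B * ∑ p : P, (if p ∈ S.Bd then 0 else 1 / ((D.sg (D.x p) : ℝ) + D.L)) := by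
  classical
  obtain ⟨Zf, hZf⟩ : ∃ Zf : Finset V, ∀ z, z ∈ Zf ↔ z ∈ S.Z :=
    ⟨(Set.toFinite S.Z).toFinset, fun z => Set.Finite.mem_toFinset _⟩
  obtain ⟨Pf, hPf⟩ : ∃ Pf : Finset P, ∀ p, p ∈ Pf ↔ p ∉ S.Bd :=
    ⟨Finset.univ.filter fun p => p ∉ S.Bd, fun p => by simp⟩
  have hZc : S.Z.ncard = Zf.card := by
    have : S.Z = (Zf : Set V) := by
      ext z
      rw [Finset.mem_coe, hZf]
    rw [this, Set.ncard_coe_finset]
  have h3 : ∀ c ∈ (Finset.univ : Finset V), (if (∃ s ∈ Φ.Sr, S.E.ctr s.2.2 = c) then gl c else 0) ≤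
      (if c ∈ Zf then A else 0) + (if c ∈ Pf.image D.x then
        B * (1 / ((D.sg c : ℝ) + D.L)) else 0) := by
    intro c _
    have e1 : (0 : ℝ) ≤ if c ∈ Zf then A else 0 := by
      split_ifs
      · exact hA
      · exact le_rfl
    have e2 : (0 : ℝ) ≤ if c ∈ Pf.image D.x then B * (1 / ((D.sg c : ℝ) + D.L)) else 0 := by
      split_ifs
      · positivity
      · exact le_rfl
    by_cases hc : ∃ s ∈ Φ.Sr, S.E.ctr s.2.2 = c
    · rw [if_pos hc]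
      obtain ⟨s, hs, hsc⟩ := hc
      by_cases hcZ : c ∈ S.Z
      · rw [if_pos ((hZf c).2 hcZ)]
        have := h1 c hcZ
        rw [if_pos ((hZf c).2 hcZ)] at e1
        linarith
      · obtain ⟨-, ⟨⟨-, -, h4⟩, -⟩⟩ := Φ.mAl _ _ _ ((Φ.mem_Sr s).1 hs).1
        have h5 := S.E.ctr_mem _ (VN_of_adj' h4)
        rw [hsc] at h5
        rcases h5 with h5 | ⟨p, hp, hpc⟩
        · exact absurd h5 hcZ
        · have hp' : p ∉ S.Bd := hp
          have h6 : c ∈ Pf.image D.x := Finset.mem_image.2 ⟨p, (hPf p).2 hp', hpc⟩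
          rw [if_pos h6]
          have h7 := h2 p hp' (by rw [hpc]; exact hcZ)
          rw [hpc] at h7
          linarith
    · rw [if_neg hc]
      linarith
  refine (Finset.sum_le_sum h3).trans ?_
  rw [Finset.sum_add_distrib]
  refine add_le_add (le_of_eq ?_) ?_
  · rw [← Finset.sum_filter, Finset.filter_mem_eq_inter, Finset.univ_inter, Finset.sum_const,
      nsmul_eq_mul, hZc, mul_comm]
  · rw [← Finset.sum_filter, Finset.filter_mem_eq_inter, Finset.univ_inter, Finset.mul_sum]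
    refine (Finset.sum_image_le_of_nonneg (g := D.x) (s := Pf)
      (f := fun c => B * (1 / ((D.sg c : ℝ) + D.L))) (fun c _ => by positivity)).trans ?_
    have h8 : ∑ p : P, B * (if p ∈ S.Bd then 0 else 1 / ((D.sg (D.x p) : ℝ) + D.L)) =
        ∑ p ∈ Pf, B * (1 / ((D.sg (D.x p) : ℝ) + D.L)) := by
      have h9 : Pf = Finset.univ.filter fun p => p ∉ S.Bd := by
        ext p
        rw [hPf]
        simp
      rw [h9, Finset.sum_filter]
      refine Finset.sum_congr rfl fun p _ => ?_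
      by_cases hp : p ∈ S.Bd
      · rw [if_pos hp, if_neg (not_not.2 hp), mul_zero]
      · rw [if_neg hp, if_pos hp]
    rw [h8]

end Pool.Agent.Helper5.HH
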