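import Pool.Agent.Helper93.HH.FG
import Pool.Agent.Helper43.HH.Leg
import Pool.Agent.Helper51.HH.Tree

/-!
# HH, FL-5: the tripods of the blocks
-/

open Set
open Pool.Agent.Helper83.OP
open Pool.Agent.Helper43.HH
open Pool.Agent.Helper93.HH

namespace Pool.Agent.Helper5.HH

open HD

/-- the sum over a path of ancestors -/
theorem sum_anc {V : Type} {G : SimpleGraph V} {par : V → V} {dep : V → ℕ} {a b v : V}
    (W : G.Walk a b) (hW : W.IsPath) (h : ∀ z ∈ W.support, Anc par dep z v) (g : V → ℝ)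
    (hg : ∀ z, 0 ≤ g z) :
    (W.support.map g).sum ≤ ∑ j ∈ Finset.range (dep v + 1), g (par^[j] v) := by
  classical
  have hn : W.support.Nodup := hW.support_nodup
  have h1 : (W.support.map g).sum = ∑ z ∈ W.support.toFinset, g z := by
    rw [List.sum_toFinset g hn]
  rw [h1]
  have h2 : ∑ z ∈ W.support.toFinset, g z =
      ∑ j ∈ W.support.toFinset.image (fun z => dep v - dep z), g (par^[j] v) := by
    rw [Finset.sum_image]
    · refine Finset.sum_congr rfl fun z hz => ?_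
      rw [(h z (List.mem_toFinset.1 hz)).2]
    · intro z hz z' hz' he
      have a1 := h z (List.mem_toFinset.1 hz)
      have a2 := h z' (List.mem_toFinset.1 hz')
      have he' : dep v - dep z = dep v - dep z' := he
      rw [← a1.2, ← a2.2, he']
  rw [h2]
  refine Finset.sum_le_sum_of_subset_of_nonneg ?_ (fun _ _ _ => hg _)
  intro j hj
  obtain ⟨z, -, hz⟩ := Finset.mem_image.1 hj
  rw [Finset.mem_range]
  omega

variable {V P Q : Type} [Fintype V] [Fintype P] [Finite Q] {D : HD V P Q} {K : ℕ}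
  {S : Sys D K} {e0 : Sym2 V} {D0 M : ℕ} {Φ : Fl S e0 D0 M}

/-- the leg of an exit -/
theorem exists_leg {t x0 u w : V} (ht : Anc S.E.par S.E.dep t w) (hu : S.E.ctr u = x0)
    (ha : D.N.Adj u w) : ∃ W : D.N.Walk t x0,
      (∀ v ∈ W.support, (Anc S.E.par S.E.dep t v ∧ Anc S.E.par S.E.dep v w) ∨
        Anc S.E.par S.E.dep v u) ∧
      ∀ g : V → ℝ, (∀ v, 0 ≤ g v) → (W.support.map g).sum ≤
        ∑ j ∈ Finset.range (S.E.dep w + 1), g (S.E.par^[j] w) +
        ∑ j ∈ Finset.range (S.E.dep u + 1), g (S.E.par^[j] u) := by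
  subst hu
  obtain ⟨p, p1, -, p3, -⟩ := Helper51.HH.down_path S.E ht
  obtain ⟨q, q1, -, q3, -⟩ := Helper51.HH.down_path S.E (Helper51.HH.anc_ctr S.E u)
  have hs : (p.append (SimpleGraph.Walk.cons ha.symm q.reverse)).support =
      p.support ++ q.reverse.support := by
    rw [SimpleGraph.Walk.support_append, SimpleGraph.Walk.support_cons, List.tail_cons]
  refine ⟨p.append (SimpleGraph.Walk.cons ha.symm q.reverse), ?_, ?_⟩
  · intro v hv
    rw [hs, List.mem_append, SimpleGraph.Walk.support_reverse, List.mem_reverse] at hv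
    rcases hv with hv | hv
    · exact Or.inl (p3 v hv)
    · exact Or.inr (q3 v hv).2
  · intro g hg
    rw [hs, List.map_append, List.sum_append]
    refine add_le_add (sum_anc p p1 (fun z hz => (p3 z hz).2) g hg) ?_
    refine sum_anc q.reverse q1.reverse (fun z hz => ?_) g hg
    rw [SimpleGraph.Walk.support_reverse, List.mem_reverse] at hz
    exact (q3 z hz).2

/-- the tripod of a block: the leg of the source `(p, u, w)` goes from the top down to `w`, then to `u`, up to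
`x p`, and along the pin `p`. The hubs are different by `diff_hubs`, `exit_uniq` -/
theorem exists_tri (Bl : Bk Φ) (hD : D.Ok) (hK : 10 ≤ K)
    (hdh : ∀ (p p' : P), Iso S D0 M p → Iso S D0 M p' → p ≠ p' →
      ∀ u w u' w', Al S p u w → Al S p' u' w' → ¬ Drop S u w → ¬ Drop S u' w' →
      S.E.ctr w = S.E.ctr w' → D.hub p ≠ D.hub p')
    (x : V × ℕ × Finset (P × V × V)) (hx : x ∈ Bl.T0) :
    ∃ T : Leg3 D e0, ∀ k, ∃ s ∈ x.2.2, T.p k = s.1 ∧
      (∀ v ∈ (T.W k).support, OnLeg S (Bl.top x.1 x.2.1 x.2.2) s v) ∧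
      ∀ g : V → ℝ, (∀ v, 0 ≤ g v) → ((T.W k).support.map g).sum ≤
        ∑ j ∈ Finset.range (S.E.dep s.2.2 + 1), g (S.E.par^[j] s.2.2) +
        ∑ j ∈ Finset.range (S.E.dep s.2.1 + 1), g (S.E.par^[j] s.2.1) := by
  classical
  obtain ⟨-, hB⟩ := (Bl.mem_T0 x).1 hx
  set c := x.1
  set β := x.2.2
  set t := Bl.top x.1 x.2.1 x.2.2
  have hcard := Bl.card _ _ _ hB
  set e : Fin 3 ≃ β := (β.equivFinOfCardEq hcard).symm
  have hmem : ∀ k, (e k : P × V × V) ∈ β := fun k => (e k).2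
  have hall : ∀ s ∈ β, ((Iso S D0 M s.1 ∧ e0 ∉ (D.w s.1).edges) ∧ Al S s.1 s.2.1 s.2.2) ∧
      ¬ Drop S s.2.1 s.2.2 ∧ S.E.ctr s.2.2 = c := by
    intro s hs
    obtain ⟨h1, h2, -⟩ := Bl.sub _ _ _ hB s hs
    obtain ⟨h3, h4⟩ := (Φ.mem_Sr s).1 h1
    exact ⟨Φ.mAl _ _ _ h3, h4, h2⟩
  have hleg : ∀ k, ∃ W : D.N.Walk t (D.x (e k : P × V × V).1),
      (∀ v ∈ W.support, (Anc S.E.par S.E.dep t v ∧
        Anc S.E.par S.E.dep v (e k : P × V × V).2.2) ∨
        Anc S.E.par S.E.dep v (e k : P × V × V).2.1) ∧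
      ∀ g : V → ℝ, (∀ v, 0 ≤ g v) → (W.support.map g).sum ≤
        ∑ j ∈ Finset.range (S.E.dep (e k : P × V × V).2.2 + 1), g (S.E.par^[j] (e k : P × V × V).2.2) +
        ∑ j ∈ Finset.range (S.E.dep (e k : P × V × V).2.1 + 1),
          g (S.E.par^[j] (e k : P × V × V).2.1) := by
    intro k
    obtain ⟨⟨-, h1, -, -⟩, -, -⟩ := hall _ (hmem k)
    exact exists_leg ((Bl.topp _ _ _ hB).1 _ (hmem k)) h1.1 h1.2.2
  choose W hW1 hW2 using hleg
  refine ⟨{ c := t, p := fun k => (e k : P × V × V).1, W := W, inj := ?_,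
            e := fun k => (hall _ (hmem k)).1.1.2 }, ?_⟩
  · intro k l hkl
    obtain ⟨⟨⟨a1, -⟩, a2⟩, a3, a4⟩ := hall _ (hmem k)
    obtain ⟨⟨⟨b1, -⟩, b2⟩, b3, b4⟩ := hall _ (hmem l)
    have hne : (e k : P × V × V) ≠ (e l : P × V × V) := fun h =>
      hkl (e.injective (Subtype.ext h))
    have hpp : (e k : P × V × V).1 ≠ (e l : P × V × V).1 := by
      intro hp
      apply hne
      have h1 := a2.1
      have h2 := b2.1
      rw [← hp] at h2
      obtain ⟨h3, h4⟩ := Helper51.HH.exit_uniq hD S hK h1 h2 (a4.trans b4.symm)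
      exact Prod.ext hp (Prod.ext h3 h4)
    exact hdh _ _ a1 b1 hpp _ _ _ _ a2 b2 a3 b3 (a4.trans b4.symm)
  · intro k
    refine ⟨(e k : P × V × V), hmem k, rfl, ?_, hW2 k⟩
    intro v hv
    rcases hW1 k v hv with h | h
    · exact Or.inl h
    · exact Or.inr (Or.inl h)

end Pool.Agent.Helper5.HH
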